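import Mathlib
import Pool.Agent.Helper92.Bloch.Landau

set_option autoImplicit false

namespace Pool.Agent.Results.MP_b327a3_an.BlochLowerBound

/-- Bloch's constant is at least `0.447`: every normalized holomorphic function on the unit disc
is injective on some nonempty connected open set whose image contains an open disc of
radius `0.447`. -/
theorem result :
    ∀ f : ℂ → ℂ, DifferentiableOn ℂ f (Metric.ball (0 : ℂ) 1) → f 0 = 0 → deriv f 0 = 1 →
      ∃ S : Set ℂ, S ⊆ Metric.ball (0 : ℂ) 1 ∧ IsOpen S ∧ IsConnected S ∧ Set.InjOn f S ∧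
        ∃ w : ℂ, Metric.ball w (447 / 1000) ⊆ f '' S := by
  intro f hf _ h1
  exact Pool.Agent.Helper92.Bloch.landau hf h1

end Pool.Agent.Results.MP_b327a3_an.BlochLowerBound
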